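import Pool.Agent.H463Z.Sul.Defs

/-!
# Basic tools for `Lam deg`: universal property, parity automorphism, derivations
-/

namespace Pool.Agent.H463Z.Sul

variable {ι : Type} (deg : ι → ℕ)

lemma gen_comm (i j : ι) :
    gen deg i * gen deg j = (-1 : ℚ) ^ (deg i * deg j) • (gen deg j * gen deg i) := by
  have h := RingQuot.mkAlgHom_rel ℚ (CommRel.comm (deg := deg) i j)
  simp only [map_mul, map_smul] at h
  exact h

/-- universal property -/
noncomputable def lift {T : Type} [Ring T] [Algebra ℚ T] (φ : ι → T)
    (h : ∀ i j, φ i * φ j = (-1 : ℚ) ^ (deg i * deg j) • (φ j * φ i)) : Lam deg →ₐ[ℚ] T :=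
  RingQuot.liftAlgHom ℚ ⟨FreeAlgebra.lift ℚ φ, by
    intro x y hxy
    cases hxy with
    | comm i j => simpa only [map_mul, map_smul, FreeAlgebra.lift_ι_apply] using h i j⟩

@[simp] lemma lift_gen {T : Type} [Ring T] [Algebra ℚ T] (φ : ι → T)
    (h : ∀ i j, φ i * φ j = (-1 : ℚ) ^ (deg i * deg j) • (φ j * φ i)) (i : ι) :
    lift deg φ h (gen deg i) = φ i := by
  exact (RingQuot.liftAlgHom_mkAlgHom_apply ℚ (FreeAlgebra.lift ℚ φ) _ _).trans
    (FreeAlgebra.lift_ι_apply _ _)

lemma induction {P : Lam deg → Prop} (h0 : ∀ q : ℚ, P (algebraMap ℚ _ q))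
    (h1 : ∀ i, P (gen deg i)) (hm : ∀ x y, P x → P y → P (x * y))
    (ha : ∀ x y, P x → P y → P (x + y)) (x : Lam deg) : P x := by
  obtain ⟨x, rfl⟩ := RingQuot.mkAlgHom_surjective ℚ (CommRel deg) x
  induction x using FreeAlgebra.induction with
  | grade0 r => rw [AlgHom.commutes]; exact h0 r
  | grade1 i => exact h1 i
  | mul a b ha' hb' => rw [map_mul]; exact hm _ _ ha' hb'
  | add a b ha' hb' => rw [map_add]; exact ha _ _ ha' hb'

@[simp] lemma word_nil : word deg [] = 1 := rfl

@[simp] lemma word_cons (i : ι) (l : List ι) : word deg (i :: l) = gen deg i * word deg l := by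
  simp [word]

lemma word_append (l l' : List ι) : word deg (l ++ l') = word deg l * word deg l' := by
  simp [word]

lemma word_mem (l : List ι) : word deg l ∈ part deg (l.map deg).sum :=
  Submodule.subset_span ⟨l, rfl, rfl⟩

lemma gen_mem (i : ι) : gen deg i ∈ part deg (deg i) := by
  have := word_mem deg [i]
  simpa using this

lemma mul_mem_part {m n : ℕ} {x y : Lam deg} (hx : x ∈ part deg m) (hy : y ∈ part deg n) :
    x * y ∈ part deg (m + n) := by
  induction hx using Submodule.span_induction with
  | mem x hx =>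
    obtain ⟨l, hl, rfl⟩ := hx
    induction hy using Submodule.span_induction with
    | mem y hy =>
      obtain ⟨l', hl', rfl⟩ := hy
      rw [← word_append]
      have := word_mem deg (l ++ l')
      rwa [List.map_append, List.sum_append, hl, hl'] at this
    | zero => simp
    | add a b _ _ ha hb => rw [mul_add]; exact add_mem ha hb
    | smul c a _ ha => rw [mul_smul_comm]; exact Submodule.smul_mem _ _ ha
  | zero => simp
  | add a b _ _ ha hb => rw [add_mul]; exact add_mem ha hb
  | smul c a _ ha => rw [smul_mul_assoc]; exact Submodule.smul_mem _ _ ha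

/-- the scaling automorphism -/
noncomputable def scale (t : ℚ) : Lam deg →ₐ[ℚ] Lam deg :=
  lift deg (fun i => t ^ deg i • gen deg i) (by
    intro i j
    simp only [smul_mul_smul_comm]
    rw [gen_comm deg i j, smul_comm, mul_comm (t ^ deg j)])

@[simp] lemma scale_gen (t : ℚ) (i : ι) : scale deg t (gen deg i) = t ^ deg i • gen deg i :=
  lift_gen _ _ _ _

lemma scale_word (t : ℚ) (l : List ι) :
    scale deg t (word deg l) = t ^ (l.map deg).sum • word deg l := by
  induction l with
  | nil => simp
  | cons i l ih =>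
    rw [word_cons, map_mul, ih, scale_gen, smul_mul_smul_comm, List.map_cons, List.sum_cons, pow_add]

lemma scale_part (t : ℚ) {n : ℕ} {x : Lam deg} (hx : x ∈ part deg n) :
    scale deg t x = t ^ n • x := by
  induction hx using Submodule.span_induction with
  | mem x hx => obtain ⟨l, hl, rfl⟩ := hx; rw [scale_word, hl]
  | zero => simp
  | add a b _ _ ha hb => rw [map_add, ha, hb, smul_add]
  | smul c a _ ha => rw [map_smul, ha, smul_comm]

lemma part_indep : iSupIndep (part deg) := by
  have h := Module.End.eigenspaces_iSupIndep ((scale deg 2).toLinearMap : Module.End ℚ (Lam deg))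
  have hinj : Function.Injective (fun n : ℕ => (2 : ℚ) ^ n) :=
    pow_right_injective₀ (by norm_num) (by norm_num)
  refine (h.comp hinj).mono (fun n x hx => ?_)
  simp only [Function.comp, Module.End.mem_eigenspace_iff, AlgHom.toLinearMap_apply]
  exact scale_part deg 2 hx

/-- the parity automorphism -/
noncomputable abbrev sg : Lam deg →ₐ[ℚ] Lam deg := scale deg (-1)

lemma sg_sg (x : Lam deg) : sg deg (sg deg x) = x := by
  induction x using induction deg with
  | h0 q => simp
  | h1 i => rw [scale_gen, map_smul, scale_gen, smul_smul, ← mul_pow]; simp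
  | hm x y hx hy => rw [map_mul, map_mul, hx, hy]
  | ha x y hx hy => rw [map_add, map_add, hx, hy]

lemma gen_mul_even {i : ι} (hi : Even (deg i)) (x : Lam deg) : gen deg i * x = x * gen deg i := by
  induction x using induction deg with
  | h0 q => rw [Algebra.commutes]
  | h1 j => rw [gen_comm, (hi.mul_right _).neg_one_pow, one_smul]
  | hm x y hx hy => rw [← mul_assoc, hx, mul_assoc, hy, mul_assoc]
  | ha x y hx hy => rw [mul_add, add_mul, hx, hy]

lemma gen_mul_odd {i : ι} (hi : Odd (deg i)) (x : Lam deg) :
    gen deg i * x = sg deg x * gen deg i := by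
  induction x using induction deg with
  | h0 q => rw [AlgHom.commutes, Algebra.commutes]
  | h1 j =>
    rw [gen_comm, scale_gen, smul_mul_assoc, pow_mul, hi.neg_one_pow]
  | hm x y hx hy => rw [← mul_assoc, hx, mul_assoc, hy, map_mul, mul_assoc]
  | ha x y hx hy => rw [mul_add, map_add, add_mul, hx, hy]

/-- commutation of a generator with an element of parity `deg j + 1` -/
lemma gen_mul_opp (i : ι) {k : ℕ} {x : Lam deg} (hx : sg deg x = (-1 : ℚ) ^ (k + 1) • x) :
    (-1 : ℚ) ^ deg i • (gen deg i * x) = (-1 : ℚ) ^ (deg i * k) • (x * gen deg i) := by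
  rcases Nat.even_or_odd (deg i) with h | h
  · rw [h.neg_one_pow, (h.mul_right _).neg_one_pow, gen_mul_even deg h]
  · rw [gen_mul_odd deg h, hx, h.neg_one_pow, pow_mul, h.neg_one_pow, smul_mul_assoc, smul_smul,
      pow_succ]
    congr 1
    ring

/-- the part of parity `deg i + 1` of `c i` -/
noncomputable def symm (c : ι → Lam deg) (i : ι) : Lam deg :=
  (1 / 2 : ℚ) • (c i + (-1 : ℚ) ^ (deg i + 1) • sg deg (c i))

lemma sg_symm (c : ι → Lam deg) (i : ι) :
    sg deg (symm deg c i) = (-1 : ℚ) ^ (deg i + 1) • symm deg c i := by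
  unfold symm
  rw [map_smul, map_add, map_smul, sg_sg, smul_comm, smul_add ((-1 : ℚ) ^ (deg i + 1)), smul_smul,
    ← mul_pow, add_comm]
  simp

lemma symm_eq (c : ι → Lam deg) (i : ι) (h : c i ∈ part deg (deg i + 1)) : symm deg c i = c i := by
  unfold symm
  rw [scale_part deg (-1) h, smul_smul, ← mul_pow]
  simp only [mul_neg, mul_one, neg_neg, one_pow, one_smul]
  rw [← two_smul ℚ (c i), smul_smul]
  norm_num

/-- the matrix representation defining a derivation -/
noncomputable def derMat (c : ι → Lam deg) : Lam deg →ₐ[ℚ] Matrix (Fin 2) (Fin 2) (Lam deg) :=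
  lift deg (fun i => !![sg deg (gen deg i), symm deg c i; 0, gen deg i]) (by
    intro i j
    have h1 := gen_mul_opp deg i (sg_symm deg c j)
    have h2 := gen_mul_opp deg j (sg_symm deg c i)
    have h3 : ((-1 : ℚ) ^ (deg i * deg j)) * (-1) ^ (deg i * deg j) = 1 := by
      rw [← mul_pow]; simp
    ext a b
    fin_cases a <;> fin_cases b
    · simp only [Matrix.mul_fin_two, Fin.zero_eta, Matrix.smul_apply, Matrix.of_apply,
        Matrix.cons_val', Matrix.cons_val_zero, Matrix.cons_val_fin_one, mul_zero, add_zero]
      rw [← map_mul, ← map_mul, gen_comm deg i j, map_smul]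
    · simp only [Matrix.mul_fin_two, Fin.zero_eta, Fin.mk_one, Matrix.smul_apply, Matrix.of_apply,
        Matrix.cons_val', Matrix.cons_val_zero, Matrix.cons_val_one, Matrix.cons_val_fin_one]
      rw [scale_gen, scale_gen, smul_mul_assoc, smul_mul_assoc, h1, h2, mul_comm (deg j), smul_add,
        smul_smul, h3, one_smul, add_comm]
    · simp
    · simp only [Matrix.mul_fin_two, Fin.mk_one, Matrix.smul_apply, Matrix.of_apply,
        Matrix.cons_val', Matrix.cons_val_one, Matrix.cons_val_fin_one, zero_mul, zero_add]
      exact gen_comm deg i j)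

lemma derMat_entries (c : ι → Lam deg) (x : Lam deg) :
    derMat deg c x 0 0 = sg deg x ∧ derMat deg c x 1 0 = 0 ∧ derMat deg c x 1 1 = x := by
  induction x using induction deg with
  | h0 q =>
    rw [AlgHom.commutes, AlgHom.commutes]
    simp [Matrix.algebraMap_matrix_apply]
  | h1 i => unfold derMat; rw [lift_gen]; simp
  | hm x y hx hy =>
    rw [map_mul, map_mul]
    simp only [Matrix.mul_apply, Fin.sum_univ_two, hx.1, hx.2.1, hx.2.2, hy.1, hy.2.1, hy.2.2]
    simp
  | ha x y hx hy =>
    rw [map_add, map_add]
    simp only [Matrix.add_apply, hx.1, hx.2.1, hx.2.2, hy.1, hy.2.1, hy.2.2]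
    simp

/-- the derivation with prescribed values on the generators -/
noncomputable def der (c : ι → Lam deg) : Lam deg →ₗ[ℚ] Lam deg where
  toFun x := derMat deg c x 0 1
  map_add' x y := by rw [map_add]; rfl
  map_smul' q x := by rw [map_smul]; rfl

lemma der_gen (c : ι → Lam deg) (i : ι) : der deg c (gen deg i) = symm deg c i := by
  show derMat deg c (gen deg i) 0 1 = _
  unfold derMat; rw [lift_gen]; simp

lemma der_mul (c : ι → Lam deg) (x y : Lam deg) :
    der deg c (x * y) = der deg c x * y + sg deg x * der deg c y := by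
  show derMat deg c (x * y) 0 1 = derMat deg c x 0 1 * y + sg deg x * derMat deg c y 0 1
  rw [map_mul, Matrix.mul_apply, Fin.sum_univ_two, (derMat_entries deg c x).1,
    (derMat_entries deg c y).2.2, add_comm]

lemma der_algebraMap (c : ι → Lam deg) (q : ℚ) : der deg c (algebraMap ℚ _ q) = 0 := by
  show derMat deg c _ 0 1 = _
  rw [AlgHom.commutes]
  simp [Matrix.algebraMap_matrix_apply]

lemma der_one (c : ι → Lam deg) : der deg c 1 = 0 := by
  simpa using der_algebraMap deg c 1

lemma sg_der (c : ι → Lam deg) (x : Lam deg) : sg deg (der deg c x) = - der deg c (sg deg x) := by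
  induction x using induction deg with
  | h0 q => rw [AlgHom.commutes, der_algebraMap]; simp
  | h1 i => rw [der_gen, sg_symm, scale_gen, map_smul, der_gen, pow_succ]; simp
  | hm x y hx hy =>
    rw [der_mul, map_add, map_mul, map_mul, hx, hy, map_mul, der_mul]
    simp only [neg_mul, mul_neg, neg_add_rev]
    abel
  | ha x y hx hy => rw [map_add, map_add, hx, hy, map_add, map_add]; abel

lemma der_der (c : ι → Lam deg) (h : ∀ i, der deg c (der deg c (gen deg i)) = 0) (x : Lam deg) :
    der deg c (der deg c x) = 0 := by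
  induction x using induction deg with
  | h0 q => rw [der_algebraMap, map_zero]
  | h1 i => exact h i
  | hm x y hx hy =>
    rw [der_mul, map_add, der_mul, der_mul, hx, hy, sg_der]
    simp
  | ha x y hx hy => rw [map_add, map_add, hx, hy, add_zero]

lemma der_part (c : ι → Lam deg) (h : ∀ i, c i ∈ part deg (deg i + 1)) {n : ℕ} {x : Lam deg}
    (hx : x ∈ part deg n) : der deg c x ∈ part deg (n + 1) := by
  induction hx using Submodule.span_induction with
  | mem x hx =>
    obtain ⟨l, rfl, rfl⟩ := hx
    induction l with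
    | nil => rw [word_nil, der_one]; exact zero_mem _
    | cons i l ih =>
      rw [word_cons, der_mul, der_gen, symm_eq deg c i (h i), scale_gen, smul_mul_assoc,
        List.map_cons, List.sum_cons]
      refine add_mem ?_ (Submodule.smul_mem _ _ ?_)
      · have := mul_mem_part deg (h i) (word_mem deg l)
        rwa [show deg i + 1 + (l.map deg).sum = deg i + (l.map deg).sum + 1 by ring] at this
      · rw [add_assoc]
        exact mul_mem_part deg (gen_mem deg i) ih
  | zero => simp
  | add a b _ _ ha hb => rw [map_add]; exact add_mem ha hb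
  | smul q a _ ha => rw [map_smul]; exact Submodule.smul_mem _ _ ha

lemma der_congr_word (c c' : ι → Lam deg) (l : List ι) (h : ∀ j ∈ l, c j = c' j) :
    der deg c (word deg l) = der deg c' (word deg l) := by
  induction l with
  | nil => rw [word_nil, der_one, der_one]
  | cons i l ih =>
    rw [word_cons, der_mul, der_mul, ih (fun j hj => h j (List.mem_cons_of_mem _ hj)), der_gen,
      der_gen]
    unfold symm
    rw [h i List.mem_cons_self]

end Pool.Agent.H463Z.Sul
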