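import Mathlib

/-!
# The degrees of the generators

Generators `0,1,2` have degree 2, `3,…,8` degree 3, `9` degree 4; every list of generators of even
total degree `s ≥ 6` indexes a generator of degree `s - 1`.
-/

namespace Pool.Agent.H463Z.Sul

def base (i : ℕ) : ℕ := if i < 3 then 2 else if i < 9 then 3 else 4

def wd (i : ℕ) : List ℕ := (Encodable.decode (α := List ℕ) (i - 10)).getD []

def dg (i : ℕ) : ℕ :=
  if i < 10 then base i else
    if Encodable.encode (wd i) + 10 = i ∧
        Even ((wd i).map (fun j => if _h : j < i then dg j else 0)).sum ∧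
        6 ≤ ((wd i).map (fun j => if _h : j < i then dg j else 0)).sum then
      ((wd i).map (fun j => if _h : j < i then dg j else 0)).sum - 1
    else 2 * i + 5
termination_by i

lemma dg_lt {i : ℕ} (h : i < 10) : dg i = base i := by
  rw [dg, if_pos h]

lemma le_encode {l : List ℕ} {j : ℕ} (h : j ∈ l) : j ≤ Encodable.encode l := by
  induction l with
  | nil => simp at h
  | cons a l ih =>
    rw [Encodable.encode_list_cons]
    rcases List.mem_cons.1 h with rfl | h
    · have := Nat.left_le_pair (Encodable.encode j) (Encodable.encode l)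
      simp only [Encodable.encode_nat] at this ⊢
      omega
    · have h1 := ih h
      have := Nat.right_le_pair (Encodable.encode a) (Encodable.encode l)
      omega

lemma wd_encode (l : List ℕ) : wd (Encodable.encode l + 10) = l := by
  simp [wd]

lemma map_cut {l : List ℕ} {i : ℕ} (h : Encodable.encode l + 10 = i) :
    l.map (fun j => if _h : j < i then dg j else 0) = l.map dg := by
  apply List.map_congr_left
  intro j hj
  have := le_encode hj
  rw [dif_pos (by omega)]

lemma dg_encode (l : List ℕ) (h1 : Even (l.map dg).sum) (h2 : 6 ≤ (l.map dg).sum) :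
    dg (Encodable.encode l + 10) + 1 = (l.map dg).sum := by
  rw [dg, if_neg (by omega), wd_encode, map_cut rfl, if_pos ⟨rfl, h1, h2⟩]
  omega

lemma dg_cases {i : ℕ} (h : 10 ≤ i) : dg i = 2 * i + 5 ∨
    (Encodable.encode (wd i) + 10 = i ∧ dg i + 1 = ((wd i).map dg).sum ∧
      Even ((wd i).map dg).sum ∧ 6 ≤ ((wd i).map dg).sum) := by
  rw [dg, if_neg (by omega)]
  split_ifs with h1
  · right
    obtain ⟨h2, h3, h4⟩ := h1
    rw [map_cut h2] at h3 h4 ⊢
    exact ⟨h2, by omega, h3, h4⟩
  · left; rfl

lemma dg_odd {i : ℕ} (h : 10 ≤ i) : Odd (dg i) ∧ 5 ≤ dg i := by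
  rcases dg_cases h with h1 | ⟨_, h2, h3, h4⟩
  · rw [h1]; exact ⟨⟨i + 2, by ring⟩, by omega⟩
  · rw [← h2] at h3 h4
    exact ⟨by rwa [Nat.even_add_one, Nat.not_even_iff_odd] at h3, by omega⟩

lemma two_le_dg (i : ℕ) : 2 ≤ dg i := by
  by_cases h : i < 10
  · rw [dg_lt h, base]; split_ifs <;> omega
  · have := (dg_odd (not_lt.1 h)).2; omega

lemma dg_le_four {i : ℕ} (h : Even (dg i)) : i < 10 ∧ dg i ≤ 4 := by
  by_cases hi : i < 10
  · refine ⟨hi, ?_⟩
    rw [dg_lt hi, base]; split_ifs <;> omega
  · exact absurd h (Nat.not_even_iff_odd.2 (dg_odd (not_lt.1 hi)).1)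

lemma two_mul_length_le (l : List ℕ) : 2 * l.length ≤ (l.map dg).sum := by
  induction l with
  | nil => simp
  | cons a l ih =>
    have := two_le_dg a
    simp only [List.length_cons, List.map_cons, List.sum_cons]
    omega

lemma two_le_length {l : List ℕ} (h1 : Even (l.map dg).sum) (h2 : 6 ≤ (l.map dg).sum) :
    2 ≤ l.length := by
  match l with
  | [] => simp at h2
  | [a] =>
    simp only [List.map_cons, List.map_nil, List.sum_cons, List.sum_nil, add_zero] at h1 h2
    have := (dg_le_four h1).2
    omega
  | _ :: _ :: _ => simp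

lemma letter_le {l : List ℕ} (h1 : Even (l.map dg).sum) (h2 : 6 ≤ (l.map dg).sum) {j : ℕ}
    (hj : j ∈ l) : dg j + 2 ≤ (l.map dg).sum := by
  have hp := List.perm_cons_erase hj
  have h3 := two_le_length h1 h2
  have h4 : (l.map dg).sum = dg j + ((l.erase j).map dg).sum := by
    rw [(hp.map dg).sum_eq]; simp
  have h5 := two_mul_length_le (l.erase j)
  have h6 := hp.length_eq
  simp only [List.length_cons] at h6
  omega

lemma letter_le' {l : List ℕ} {j : ℕ} (hj : j ∈ l) : dg j ≤ (l.map dg).sum :=
  List.single_le_sum (by simp) _ (List.mem_map_of_mem hj)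

lemma finite_lists {S : Set ℕ} (hS : S.Finite) (n : ℕ) :
    {l : List ℕ | l.length ≤ n ∧ ∀ j ∈ l, j ∈ S}.Finite := by
  induction n with
  | zero =>
    refine (Set.finite_singleton []).subset ?_
    rintro l ⟨h, _⟩
    simpa using h
  | succ n ih =>
    refine ((Set.finite_singleton []).union (Set.Finite.image2 List.cons hS ih)).subset ?_
    rintro l ⟨h1, h2⟩
    match l with
    | [] => left; rfl
    | a :: l =>
      right
      refine ⟨a, h2 a List.mem_cons_self, l, ⟨by simpa using h1, fun j hj => ?_⟩, rfl⟩
      exact h2 j (List.mem_cons_of_mem _ hj)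

lemma finite_dg_lt (n : ℕ) : {i | dg i < n}.Finite := by
  induction n with
  | zero => simp
  | succ n ih =>
    refine (((Set.finite_lt_nat 10).union (Set.finite_lt_nat (n + 1))).union
      ((finite_lists ih (n + 1)).image (fun l => Encodable.encode l + 10))).subset ?_
    intro i hi
    simp only [Set.mem_setOf_eq] at hi
    by_cases h : i < 10
    · left; left; exact h
    rcases dg_cases (not_lt.1 h) with h1 | ⟨h1, h2, h3, h4⟩
    · left; right
      show i < n + 1
      omega
    · right
      refine ⟨wd i, ⟨?_, fun j hj => ?_⟩, h1⟩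
      · have := two_mul_length_le (wd i); omega
      · have := letter_le h3 h4 hj
        show dg j < n
        omega

lemma finite_words (n : ℕ) : {l : List ℕ | (l.map dg).sum = n}.Finite := by
  refine (finite_lists (finite_dg_lt (n + 1)) n).subset ?_
  intro l hl
  simp only [Set.mem_setOf_eq] at hl
  refine ⟨?_, fun j hj => ?_⟩
  · have := two_mul_length_le l; omega
  · have := letter_le' hj
    show dg j < n + 1
    omega

end Pool.Agent.H463Z.Sul
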