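import Mathlib

/-!
# Minimal Sullivan algebras with a chosen homogeneous basis

`V` is the graded rational vector space with homogeneous basis `v i`, `i : ι`, of degrees `deg i`.
-/

namespace Pool.Agent.H463Z.Sul

variable {ι : Type}

/-- The relations `v i * v j = (-1) ^ (deg i * deg j) * v j * v i` between the generators. -/
inductive CommRel (deg : ι → ℕ) : FreeAlgebra ℚ ι → FreeAlgebra ℚ ι → Prop
  | comm (i j : ι) : CommRel deg (FreeAlgebra.ι ℚ i * FreeAlgebra.ι ℚ j)
      ((-1 : ℚ) ^ (deg i * deg j) • (FreeAlgebra.ι ℚ j * FreeAlgebra.ι ℚ i))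

/-- The free graded-commutative algebra `ΛV`: the free associative `ℚ`-algebra on the basis,
modulo graded commutativity of the generators. -/
def Lam (deg : ι → ℕ) : Type := RingQuot (CommRel deg)

/-- The ring structure of the quotient. -/
@[instance] noncomputable def lamRing (deg : ι → ℕ) : Ring (Lam deg) :=
  RingQuot.instRing (CommRel deg)

/-- The `ℚ`-algebra structure of the quotient. -/
@[instance] noncomputable def lamAlgebra (deg : ι → ℕ) : Algebra ℚ (Lam deg) :=
  RingQuot.instAlgebra (CommRel deg)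

/-- The basis element `v i` of `V`, in `ΛV`. -/
noncomputable def gen (deg : ι → ℕ) (i : ι) : Lam deg :=
  RingQuot.mkAlgHom ℚ (CommRel deg) (FreeAlgebra.ι ℚ i)

/-- The product of the generators listed in `l`. -/
noncomputable def word (deg : ι → ℕ) (l : List ι) : Lam deg := (l.map (gen deg)).prod

/-- The elements of degree `n` of `ΛV`. -/
noncomputable def part (deg : ι → ℕ) (n : ℕ) : Submodule ℚ (Lam deg) :=
  Submodule.span ℚ {x | ∃ l : List ι, (l.map deg).sum = n ∧ x = word deg l}

/-- `Λ^{≥2} V`, spanned by the products of at least two generators. -/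
noncomputable def decomposable (deg : ι → ℕ) : Submodule ℚ (Lam deg) :=
  Submodule.span ℚ {x | ∃ l : List ι, 2 ≤ l.length ∧ x = word deg l}

/-- `(ΛV, d)` is a minimal Sullivan algebra with `V = V^{≥2}`: `d` has degree `+1`, is a graded
derivation, has square zero, and `d V ⊆ Λ^{≥2} V`. -/
structure IsMinimalSullivan (deg : ι → ℕ) (d : Lam deg →ₗ[ℚ] Lam deg) : Prop where
  two_le : ∀ i, 2 ≤ deg i
  degree : ∀ n, ∀ x ∈ part deg n, d x ∈ part deg (n + 1)
  leibniz : ∀ n, ∀ x ∈ part deg n, ∀ y, d (x * y) = d x * y + (-1 : ℚ) ^ n • (x * d y)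
  sq_zero : ∀ x, d (d x) = 0
  minimal : ∀ i, d (gen deg i) ∈ decomposable deg

/-- The cocycles in the sum of the parts of even degree. -/
noncomputable def evenCocycles (deg : ι → ℕ) (d : Lam deg →ₗ[ℚ] Lam deg) :
    Submodule ℚ (Lam deg) :=
  LinearMap.ker d ⊓ ⨆ n, part deg (2 * n)

/-- `H^{even}(ΛV, d)`: even cocycles modulo coboundaries. -/
abbrev EvenCohomology (deg : ι → ℕ) (d : Lam deg →ₗ[ℚ] Lam deg) : Type :=
  evenCocycles deg d ⧸ (LinearMap.range d).submoduleOf (evenCocycles deg d)

/-- The class of `v i` is nilpotent in the cohomology of the quotient of `(ΛV, d)` by the ideal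
generated by `V^{< deg i}`: a positive power of `v i` is a coboundary modulo this ideal. -/
def NilpotentInFibre (deg : ι → ℕ) (d : Lam deg →ₗ[ℚ] Lam deg) (i : ι) : Prop :=
  ∃ m : ℕ, 1 ≤ m ∧ ∃ b : Lam deg,
    gen deg i ^ m - d b ∈ TwoSidedIdeal.span {x | ∃ j, deg j < deg i ∧ x = gen deg j}

end Pool.Agent.H463Z.Sul
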