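import Pool.Agent.H463Z.Sul.Main

/-!
# The generator of degree four stays non-nilpotent
-/

namespace Pool.Agent.H463Z.Sul

open Polynomial

noncomputable def p0 (i : ℕ) : D0 :=
  if i = 0 then C R0.va else if i = 1 then C R0.vb else if i = 2 then C R0.vc
  else if i = 9 then X else 0

lemma p0_odd {i : ℕ} (h : Odd (dg i)) : p0 i = 0 := by
  unfold p0
  split_ifs with h0 h1 h2 h9
  · rw [h0, dg0] at h; exact absurd h (by decide)
  · rw [h1, dg1] at h; exact absurd h (by decide)
  · rw [h2, dg2] at h; exact absurd h (by decide)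
  · rw [h9, dg9] at h; exact absurd h (by decide)
  · rfl

lemma sign_cases (i j : ℕ) : (-1 : ℚ) ^ (dg i * dg j) = 1 ∨ (Odd (dg i) ∧ Odd (dg j)) := by
  rcases Nat.even_or_odd (dg i) with h | h
  · left; exact (h.mul_right _).neg_one_pow
  · rcases Nat.even_or_odd (dg j) with h' | h'
    · left; exact (h'.mul_left _).neg_one_pow
    · right; exact ⟨h, h'⟩

noncomputable def pi0 : AA →ₐ[ℚ] D0 :=
  lift dg p0 (by
    intro i j
    rcases sign_cases i j with h | h
    · rw [h, one_smul, mul_comm]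
    · rw [p0_odd h.1]; simp)

lemma pi0_gen (i : ℕ) : pi0 (gg i) = p0 i := lift_gen _ _ _ _

open Classical in
/-- chosen lifts -/
noncomputable def tt (j : ℕ) : D1 := if h : ∃ m, fl m = pi0 (cc j) then h.choose else 0

noncomputable def p1 (i : ℕ) : D1 :=
  if 10 ≤ i then tt i else if h : 3 ≤ i ∧ i < 9 then Pi.single (⟨i - 3, by omega⟩ : Fin 6) 1 else 0

lemma p1_even {i : ℕ} (h : Even (dg i)) : p1 i = 0 := by
  have h1 := (dg_le_four h).1
  unfold p1
  rw [if_neg (by omega), dif_neg]
  rintro ⟨h2, h3⟩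
  rw [dg_lt h1, base, if_neg (by omega), if_pos h3] at h
  exact absurd h (by decide)

noncomputable def Phi : AA →ₐ[ℚ] TrivSqZeroExt D0 D1 :=
  lift dg (fun i => TrivSqZeroExt.inl (p0 i) + TrivSqZeroExt.inr (p1 i)) (by
    intro i j
    rcases sign_cases i j with h | h
    · rw [h, one_smul, mul_comm]
    · rw [p0_odd h.1, p0_odd h.2]; simp)

lemma Phi_gen (i : ℕ) : Phi (gg i) = TrivSqZeroExt.inl (p0 i) + TrivSqZeroExt.inr (p1 i) :=
  lift_gen _ _ _ _

lemma fst_Phi (x : AA) : (Phi x).fst = pi0 x := by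
  induction x using induction dg with
  | h0 q => rw [AlgHom.commutes, AlgHom.commutes]; rfl
  | h1 i => rw [Phi_gen, pi0_gen]; simp
  | hm x y hx hy => rw [map_mul, map_mul, TrivSqZeroExt.fst_mul, hx, hy]
  | ha x y hx hy => rw [map_add, map_add, TrivSqZeroExt.fst_add, hx, hy]

noncomputable def pi1 (x : AA) : D1 := (Phi x).snd

lemma pi1_gen (i : ℕ) : pi1 (gg i) = p1 i := by
  unfold pi1; rw [Phi_gen]; simp

lemma pi1_add (x y : AA) : pi1 (x + y) = pi1 x + pi1 y := by
  unfold pi1; rw [map_add, TrivSqZeroExt.snd_add]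

lemma pi1_sub (x y : AA) : pi1 (x - y) = pi1 x - pi1 y := by
  unfold pi1; rw [map_sub, TrivSqZeroExt.snd_sub]

lemma pi1_mul (x y : AA) : pi1 (x * y) = pi0 x • pi1 y + pi0 y • pi1 x := by
  unfold pi1
  rw [map_mul, TrivSqZeroExt.snd_mul, fst_Phi, fst_Phi, op_smul_eq_smul]

lemma pi1_algebraMap (q : ℚ) : pi1 (algebraMap ℚ AA q) = 0 := by
  unfold pi1; rw [AlgHom.commutes]; rfl

lemma pi1_zero : pi1 0 = 0 := by simpa using pi1_algebraMap 0

lemma pi1_smul (q : ℚ) (x : AA) : pi1 (q • x) = algebraMap ℚ D0 q • pi1 x := by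
  rw [Algebra.smul_def, pi1_mul, pi1_algebraMap, AlgHom.commutes, smul_zero, add_zero]

lemma pi0_sg (x : AA) : pi0 (sg dg x) = pi0 x := by
  induction x using induction dg with
  | h0 q => rw [AlgHom.commutes]
  | h1 i =>
    rw [scale_gen, map_smul]
    rcases Nat.even_or_odd (dg i) with h | h
    · rw [h.neg_one_pow, one_smul]
    · rw [pi0_gen, p0_odd h, smul_zero]
  | hm x y hx hy => rw [map_mul, map_mul, map_mul, hx, hy]
  | ha x y hx hy => rw [map_add, map_add, map_add, hx, hy]

lemma pi1_sg (x : AA) : pi1 (sg dg x) = - pi1 x := by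
  induction x using induction dg with
  | h0 q => rw [AlgHom.commutes, pi1_algebraMap, neg_zero]
  | h1 i =>
    rw [scale_gen, pi1_smul]
    rcases Nat.even_or_odd (dg i) with h | h
    · rw [pi1_gen, p1_even h]; simp
    · rw [h.neg_one_pow]; simp
  | hm x y hx hy =>
    rw [map_mul, pi1_mul, pi1_mul, hx, hy, pi0_sg, pi0_sg]; simp only [smul_neg]; abel
  | ha x y hx hy => rw [map_add, pi1_add, pi1_add, hx, hy]; abel

lemma pi1_even {n : ℕ} (hn : Even n) {x : AA} (hx : x ∈ part dg n) : pi1 x = 0 := by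
  have h := pi1_sg x
  rw [scale_part dg (-1) hx, hn.neg_one_pow, one_smul] at h
  have h2 : (algebraMap ℚ D0 (1 / 2) * algebraMap ℚ D0 2) • pi1 x = pi1 x := by
    rw [← map_mul]; norm_num
  rw [← h2, mul_smul]
  have h3 : algebraMap ℚ D0 2 • pi1 x = 0 := by
    rw [map_ofNat, two_smul]
    nth_rewrite 1 [h]
    simp
  rw [h3, smul_zero]

lemma pi0_odd {n : ℕ} (hn : Odd n) {x : AA} (hx : x ∈ part dg n) : pi0 x = 0 := by
  have h := pi0_sg x
  rw [scale_part dg (-1) hx, hn.neg_one_pow, map_smul] at h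
  have h2 : (2 : ℚ) • pi0 x = 0 := by
    rw [two_smul]
    nth_rewrite 1 [← h]
    simp
  have h3 : ((1 / 2 : ℚ) * 2) • pi0 x = pi0 x := by norm_num
  rw [← h3, mul_smul, h2, smul_zero]

/-- compatibility of the test maps with the differential -/
def Good (x : AA) : Prop :=
  pi0 (dd x) = fl (pi1 x) ∧ pi1 (dd x) - derivative (pi0 x) • omb ∈ Bd

lemma fl_zero : fl 0 = 0 := by simp [fl]

lemma good_algebraMap (q : ℚ) : Good (algebraMap ℚ AA q) := by
  have h : dd (algebraMap ℚ AA q) = 0 := der_algebraMap dg cc q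
  refine ⟨by rw [h, pi1_algebraMap, fl_zero, map_zero], ?_⟩
  rw [h, pi1_zero, AlgHom.commutes, Polynomial.algebraMap_apply, derivative_C]
  simp

lemma Good.add {x y : AA} (hx : Good x) (hy : Good y) : Good (x + y) := by
  refine ⟨by rw [map_add, map_add, pi1_add, fl_add, hx.1, hy.1], ?_⟩
  rw [map_add, pi1_add, map_add, map_add, add_smul]
  convert add_mem hx.2 hy.2 using 1
  abel

lemma Good.mul {x y : AA} (hx : Good x) (hy : Good y) : Good (x * y) := by
  constructor
  · rw [dd_mul, map_add, map_mul, map_mul, pi0_sg, pi1_mul, fl_add, fl_smul, fl_smul, hx.1, hy.1]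
    ring
  · rw [dd_mul, pi1_add, pi1_mul, pi1_mul, pi0_sg, pi1_sg, hx.1, hy.1, map_mul, derivative_mul]
    have h := add_mem (add_mem (koszul_mem (pi1 x) (pi1 y)) (Bd.smul_mem (pi0 y) hx.2))
      (Bd.smul_mem (pi0 x) hy.2)
    convert h using 1
    simp only [smul_sub, smul_neg, add_smul, smul_smul, mul_comm (pi0 y)]
    abel

lemma Good.smul (q : ℚ) {x : AA} (hx : Good x) : Good (q • x) := by
  rw [Algebra.smul_def]; exact (good_algebraMap q).mul hx

lemma good_lt {i : ℕ} (h : i < 10) : Good (gg i) := by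
  unfold Good
  rw [dd_gen, pi1_gen, pi0_gen]
  by_cases h9 : i = 9
  · subst h9
    refine ⟨?_, ?_⟩
    · rw [pi0_odd (by rw [dg9]; decide) (cc_part 9), p1_even (by rw [dg9]; decide), fl_zero]
    · rw [cc_lt h]
      have : sp 9 = gg 0 * gg 8 + gg 1 * gg 7 - (gg 2 * gg 6 + gg 2 * gg 6) := by simp [sp]
      rw [this]
      simp only [pi1_sub, pi1_add, pi1_mul, pi0_gen, pi1_gen]
      have h0 : omb = C R0.va • p1 8 + C R0.vb • p1 7 - (C R0.vc • p1 6 + C R0.vc • p1 6) := by
        funext k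
        fin_cases k <;> simp [omb, R0.om, p1]
      rw [h0]
      simp [p0]
  · by_cases h3 : i < 3
    · have hc : cc i = 0 := by
        rw [cc_lt h]; interval_cases i <;> simp [sp]
      have he : Even (dg i) := by rw [dg_lt h, base, if_pos h3]; decide
      rw [hc, p1_even he, map_zero, fl_zero, pi1_zero]
      refine ⟨rfl, ?_⟩
      interval_cases i <;> simp [p0]
    · have hd : dg i = 3 := by rw [dg_lt h, base, if_neg h3, if_pos (by omega)]
      rw [pi1_even (n := dg i + 1) (by rw [hd]; decide) (cc_part i), p0_odd (by rw [hd]; decide)]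
      refine ⟨?_, by simp⟩
      rw [cc_lt h]
      have h3' : 3 ≤ i := by omega
      have h9' : i < 9 := by omega
      interval_cases i <;> simp [sp, p1, fl_single, pi0_gen, p0, R0.f]

lemma good_ge {i : ℕ} (h : 10 ≤ i) (ht : fl (tt i) = pi0 (cc i)) : Good (gg i) := by
  unfold Good
  rw [dd_gen, pi1_gen, pi0_gen, pi1_even (even_succ h).1 (cc_part i), p0_odd (dg_odd h).1]
  refine ⟨?_, by simp⟩
  rw [← ht, p1, if_pos h]

lemma good_word {l : List ℕ} (h : ∀ j ∈ l, Good (gg j)) : Good (word dg l) := by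
  induction l with
  | nil => simpa using good_algebraMap 1
  | cons a l ih =>
    rw [word_cons]
    exact (h a List.mem_cons_self).mul (ih fun j hj => h j (List.mem_cons_of_mem _ hj))

lemma p0_o (i : ℕ) : ((p0 i).coeff 0).o = 0 := by
  unfold p0
  split_ifs <;> simp [R0.va, R0.vb, R0.vc, R0.zero_def]

lemma deep_dec {x : AA} (hx : x ∈ decomposable dg) : R0.Deep ((pi0 x).coeff 0) := by
  induction hx using Submodule.span_induction with
  | mem x hx =>
    obtain ⟨l, hl, rfl⟩ := hx
    match l, hl with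
    | i :: j :: l, _ =>
      rw [word_cons, word_cons, map_mul, map_mul, mul_coeff_zero, mul_coeff_zero, pi0_gen, pi0_gen]
      apply R0.Deep.mul (p0_o i)
      rw [R0.mul_def]
      simp [p0_o]
  | zero => simp [R0.Deep, R0.zero_def]
  | add a b _ _ ha hb =>
    rw [map_add, coeff_add]
    obtain ⟨h1, h2, h3, h4⟩ := ha
    obtain ⟨g1, g2, g3, g4⟩ := hb
    simp [R0.Deep, R0.add_def, h1, h2, h3, h4, g1, g2, g3, g4]
  | smul q a _ ha =>
    rw [map_smul, coeff_smul, Algebra.smul_def, R0.algebraMap_def]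
    obtain ⟨h1, h2, h3, h4⟩ := ha
    simp [R0.Deep, R0.mul_def, h1, h2, h3, h4]

lemma good_gen (i : ℕ) : Good (gg i) := by
  induction hn : dg i using Nat.strong_induction_on generalizing i with
  | _ n ih =>
    by_cases h : i < 10
    · exact good_lt h
    have h10 := not_lt.1 h
    apply good_ge h10
    have hg : ∀ x ∈ part dg (dg i + 1), Good x := by
      intro x hx
      induction hx using Submodule.span_induction with
      | mem x hx =>
        obtain ⟨l, hl, rfl⟩ := hx
        apply good_word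
        intro j hj
        have := letter_le (hl ▸ (even_succ h10).1) (hl ▸ (even_succ h10).2) hj
        exact ih (dg j) (by omega) j rfl
      | zero => simpa using good_algebraMap 0
      | add a b _ _ ha hb => exact ha.add hb
      | smul q a _ ha => exact ha.smul q
    have h2 := (hg _ (cc_part i)).2
    rw [dd_cc, pi1_zero, zero_sub, neg_mem_iff] at h2
    have h3 := exists_fl h2 (deep_dec (cc_dec i))
    rw [tt, dif_pos h3]
    exact h3.choose_spec

lemma good_all (x : AA) : Good x := by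
  induction x using induction dg with
  | h0 q => exact good_algebraMap q
  | h1 i => exact good_gen i
  | hm x y hx hy => exact hx.mul hy
  | ha x y hx hy => exact hx.add hy

noncomputable def psi : AA →ₐ[ℚ] ℚ[X] := (Polynomial.mapAlgHom R0.ev).comp pi0

lemma psi_dd (x : AA) : psi (dd x) = 0 := by
  unfold psi
  rw [AlgHom.comp_apply, (good_all x).1, fl, map_sum]
  refine Finset.sum_eq_zero fun i _ => ?_
  have : R0.ev (R0.f i) = 0 := R0.f_o i
  simp [this]

theorem not_nilpotent : ¬ NilpotentInFibre dg dd 9 := by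
  rintro ⟨m, _, b, hb⟩
  have h : TwoSidedIdeal.span {x | ∃ j, dg j < dg 9 ∧ x = gen dg j} ≤ TwoSidedIdeal.ker psi := by
    rw [TwoSidedIdeal.span_le]
    rintro x ⟨j, hj, rfl⟩
    rw [dg9] at hj
    show gen dg j ∈ TwoSidedIdeal.ker psi
    rw [TwoSidedIdeal.mem_ker]
    unfold psi
    rw [AlgHom.comp_apply, pi0_gen]
    unfold p0
    have ha : R0.ev R0.va = 0 := rfl
    have hb : R0.ev R0.vb = 0 := rfl
    have hc : R0.ev R0.vc = 0 := rfl
    split_ifs with h0 h1 h2 h9
    · simp [ha]
    · simp [hb]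
    · simp [hc]
    · rw [h9, dg9] at hj; omega
    · simp
  have h1 := h hb
  rw [TwoSidedIdeal.mem_ker, map_sub, psi_dd, sub_zero, map_pow] at h1
  have h2 : psi (gen dg 9) = X := by
    unfold psi
    rw [AlgHom.comp_apply, pi0_gen]
    simp [p0]
  rw [h2] at h1
  exact pow_ne_zero m X_ne_zero h1

end Pool.Agent.H463Z.Sul
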