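import Mathlib

/-!
# The test ring `ℚ[a,b,c]/(a,b,c)^3` and the syzygy with zero annihilator
-/

namespace Pool.Agent.H463Z.Sul

@[ext] structure R0 where
  o : ℚ
  a : ℚ
  b : ℚ
  c : ℚ
  aa : ℚ
  bb : ℚ
  cc : ℚ
  ab : ℚ
  ac : ℚ
  bc : ℚ

namespace R0

instance : Zero R0 := ⟨⟨0, 0, 0, 0, 0, 0, 0, 0, 0, 0⟩⟩
instance : One R0 := ⟨⟨1, 0, 0, 0, 0, 0, 0, 0, 0, 0⟩⟩
instance : Add R0 := ⟨fun x y => ⟨x.o + y.o, x.a + y.a, x.b + y.b, x.c + y.c, x.aa + y.aa,
  x.bb + y.bb, x.cc + y.cc, x.ab + y.ab, x.ac + y.ac, x.bc + y.bc⟩⟩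
instance : Neg R0 := ⟨fun x => ⟨-x.o, -x.a, -x.b, -x.c, -x.aa, -x.bb, -x.cc, -x.ab, -x.ac, -x.bc⟩⟩
instance : Mul R0 := ⟨fun x y => ⟨x.o * y.o, x.o * y.a + x.a * y.o, x.o * y.b + x.b * y.o,
  x.o * y.c + x.c * y.o, x.o * y.aa + x.a * y.a + x.aa * y.o, x.o * y.bb + x.b * y.b + x.bb * y.o,
  x.o * y.cc + x.c * y.c + x.cc * y.o, x.o * y.ab + x.a * y.b + x.b * y.a + x.ab * y.o,
  x.o * y.ac + x.a * y.c + x.c * y.a + x.ac * y.o, x.o * y.bc + x.b * y.c + x.c * y.b + x.bc * y.o⟩⟩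

lemma zero_def : (0 : R0) = ⟨0, 0, 0, 0, 0, 0, 0, 0, 0, 0⟩ := rfl
lemma one_def : (1 : R0) = ⟨1, 0, 0, 0, 0, 0, 0, 0, 0, 0⟩ := rfl
lemma add_def (x y : R0) : x + y = ⟨x.o + y.o, x.a + y.a, x.b + y.b, x.c + y.c, x.aa + y.aa,
  x.bb + y.bb, x.cc + y.cc, x.ab + y.ab, x.ac + y.ac, x.bc + y.bc⟩ := rfl
lemma neg_def (x : R0) :
    -x = ⟨-x.o, -x.a, -x.b, -x.c, -x.aa, -x.bb, -x.cc, -x.ab, -x.ac, -x.bc⟩ := rfl
lemma mul_def (x y : R0) : x * y = ⟨x.o * y.o, x.o * y.a + x.a * y.o, x.o * y.b + x.b * y.o,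
  x.o * y.c + x.c * y.o, x.o * y.aa + x.a * y.a + x.aa * y.o, x.o * y.bb + x.b * y.b + x.bb * y.o,
  x.o * y.cc + x.c * y.c + x.cc * y.o, x.o * y.ab + x.a * y.b + x.b * y.a + x.ab * y.o,
  x.o * y.ac + x.a * y.c + x.c * y.a + x.ac * y.o,
  x.o * y.bc + x.b * y.c + x.c * y.b + x.bc * y.o⟩ := rfl

instance : CommRing R0 := CommRing.ofMinimalAxioms
  (by intro x y z; ext <;> simp only [add_def] <;> ring)
  (by intro x; ext <;> simp only [add_def, zero_def] <;> ring)
  (by intro x; ext <;> simp only [add_def, zero_def, neg_def] <;> ring)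
  (by intro x y z; ext <;> simp only [mul_def] <;> ring)
  (by intro x y; ext <;> simp only [mul_def] <;> ring)
  (by intro x; ext <;> simp only [mul_def, one_def] <;> ring)
  (by intro x y z; ext <;> simp only [mul_def, add_def] <;> ring)

/-- the constants -/
def const : ℚ →+* R0 where
  toFun q := ⟨q, 0, 0, 0, 0, 0, 0, 0, 0, 0⟩
  map_one' := rfl
  map_zero' := rfl
  map_mul' x y := by ext <;> simp [mul_def]
  map_add' x y := by ext <;> simp [add_def]

instance : Algebra ℚ R0 := const.toAlgebra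

lemma algebraMap_def (q : ℚ) : algebraMap ℚ R0 q = ⟨q, 0, 0, 0, 0, 0, 0, 0, 0, 0⟩ := rfl

lemma sub_def (x y : R0) : x - y = ⟨x.o - y.o, x.a - y.a, x.b - y.b, x.c - y.c, x.aa - y.aa,
  x.bb - y.bb, x.cc - y.cc, x.ab - y.ab, x.ac - y.ac, x.bc - y.bc⟩ := by
  rw [sub_eq_add_neg]
  ext <;> simp [add_def, neg_def, sub_eq_add_neg]

/-- the constant term -/
def ev : R0 →ₐ[ℚ] ℚ where
  toFun x := x.o
  map_one' := rfl
  map_zero' := rfl
  map_mul' _ _ := rfl
  map_add' _ _ := rfl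
  commutes' _ := rfl

def va : R0 := ⟨0, 1, 0, 0, 0, 0, 0, 0, 0, 0⟩
def vb : R0 := ⟨0, 0, 1, 0, 0, 0, 0, 0, 0, 0⟩
def vc : R0 := ⟨0, 0, 0, 1, 0, 0, 0, 0, 0, 0⟩

/-- the six quadrics -/
def f : Fin 6 → R0 := ![va * va, vb * vb, vc * vc, va * vb, va * vc, vb * vc]

/-- the coefficients of the syzygy -/
def om : Fin 6 → R0 := ![0, 0, 0, -(vc + vc), vb, va]

/-- no constant and no linear term -/
def Deep (x : R0) : Prop := x.o = 0 ∧ x.a = 0 ∧ x.b = 0 ∧ x.c = 0

lemma Deep.mem {x : R0} (h : Deep x) : x ∈ Ideal.span (Set.range f) := by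
  rw [Ideal.mem_span_range_iff_exists_fun]
  refine ⟨![const x.aa, const x.bb, const x.cc, const x.ab, const x.ac, const x.bc], ?_⟩
  obtain ⟨h1, h2, h3, h4⟩ := h
  rw [Fin.sum_univ_six]
  ext <;> simp [f, va, vb, vc, const, mul_def, add_def, h1, h2, h3, h4]

lemma Deep.mul {x y : R0} (hx : x.o = 0) (hy : y.o = 0) : Deep (x * y) := by
  simp [Deep, mul_def, hx, hy]

lemma f_o (i : Fin 6) : (f i).o = 0 := by
  fin_cases i <;> simp [f, va, vb, vc, mul_def]

/-- four linear functionals vanishing on the Koszul syzygies -/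
def Van (m : Fin 6 → R0) : Prop :=
  (m 5).a = 0 ∧ (m 5).aa + (m 0).bc = 0 ∧ (m 4).bb + (m 1).ac = 0 ∧ (m 3).cc + (m 2).ab = 0

lemma Van.add {m m' : Fin 6 → R0} (h : Van m) (h' : Van m') : Van (m + m') := by
  obtain ⟨h1, h2, h3, h4⟩ := h
  obtain ⟨g1, g2, g3, g4⟩ := h'
  refine ⟨?_, ?_, ?_, ?_⟩ <;> simp only [Pi.add_apply, add_def] <;> linarith

lemma van_koszul (r : R0) (i j : Fin 6) :
    Van (fun k => r * (f i * (Pi.single j (1 : R0) : Fin 6 → R0) k
      - f j * (Pi.single i (1 : R0) : Fin 6 → R0) k)) := by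
  fin_cases i <;> fin_cases j <;>
    simp [Van, f, va, vb, vc, mul_def, sub_def, zero_def, one_def, neg_def, Pi.single_apply]

lemma deep_of_van {g : R0} (h : Van (fun k => g * om k)) : Deep g := by
  obtain ⟨h1, h2, h3, h4⟩ := h
  simp [om, va, vb, vc, mul_def, zero_def, add_def, neg_def] at h1 h2 h3 h4
  exact ⟨h1, h2, h3, by linarith⟩

end R0

open Polynomial

/-- even part of the test algebra -/
abbrev D0 : Type := Polynomial R0

/-- odd part of the test algebra (before the quotient) -/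
abbrev D1 : Type := Fin 6 → D0

/-- the pure differential -/
noncomputable def fl (m : D1) : D0 := ∑ i, C (R0.f i) * m i

lemma fl_add (m m' : D1) : fl (m + m') = fl m + fl m' := by
  simp [fl, mul_add, Finset.sum_add_distrib]

lemma fl_smul (p : D0) (m : D1) : fl (p • m) = p * fl m := by
  simp only [fl, Pi.smul_apply, smul_eq_mul, Finset.mul_sum]
  exact Finset.sum_congr rfl fun i _ => by ring

lemma fl_single (i : Fin 6) : fl (Pi.single i 1) = C (R0.f i) := by
  simp [fl, Pi.single_apply]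

noncomputable def omb : D1 := fun i => C (R0.om i)

/-- Koszul syzygies -/
noncomputable def Bd : Submodule D0 D1 :=
  Submodule.span D0 {m | ∃ i j, m = C (R0.f i) • (Pi.single j 1 : D1) - C (R0.f j) • (Pi.single i 1 : D1)}

lemma koszul_mem (m m' : D1) : fl m • m' - fl m' • m ∈ Bd := by
  have h : fl m • m' - fl m' • m = ∑ i, ∑ j, (m i * m' j) •
      (C (R0.f i) • (Pi.single j 1 : D1) - C (R0.f j) • (Pi.single i 1 : D1)) := by
    funext k
    simp only [fl, Pi.sub_apply, Pi.smul_apply, smul_eq_mul, Finset.sum_apply, Pi.single_apply,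
      mul_sub, Finset.sum_sub_distrib, mul_ite, mul_one, mul_zero, Finset.sum_ite_eq,
      Finset.mem_univ, if_true, Finset.sum_mul]
    congr 1
    · exact Finset.sum_congr rfl fun i _ => by ring
    · rw [Finset.sum_comm]
      refine Finset.sum_congr rfl fun i _ => ?_
      rw [Finset.sum_ite_eq]
      simp only [Finset.mem_univ, if_true]
      ring
  rw [h]
  exact Submodule.sum_mem _ fun i _ => Submodule.sum_mem _ fun j _ =>
    Submodule.smul_mem _ _ (Submodule.subset_span ⟨i, j, rfl⟩)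

lemma van_of_mem {m : D1} (h : m ∈ Bd) : ∀ (p : D0) (n : ℕ), R0.Van (fun k => (p * m k).coeff n) := by
  induction h using Submodule.span_induction with
  | mem m hm =>
    obtain ⟨i, j, rfl⟩ := hm
    intro p n
    have := R0.van_koszul (p.coeff n) i j
    convert this using 2 with k
    simp only [Pi.sub_apply, Pi.smul_apply, smul_eq_mul, Pi.single_apply, mul_ite, mul_one, mul_zero]
    split_ifs <;> simp [mul_sub, coeff_mul_C]
  | zero => intro p n; simp [R0.Van, R0.zero_def]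
  | add m m' _ _ h h' =>
    intro p n
    have := (h p n).add (h' p n)
    convert this using 2 with k
    simp [mul_add]
  | smul q m _ h =>
    intro p n
    have := h (p * q) n
    simpa [mul_assoc] using this

lemma deep_of_smul {g : D0} (h : g • omb ∈ Bd) (n : ℕ) : R0.Deep (g.coeff n) := by
  apply R0.deep_of_van
  have := van_of_mem h 1 n
  simpa [omb, coeff_mul_C] using this

lemma deep_of_succ_mul {x : R0} {n : ℕ} (h : R0.Deep (x * ((n : R0) + 1))) : R0.Deep x := by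
  have h1 : ((n : R0) + 1) = algebraMap ℚ R0 ((n : ℚ) + 1) := by simp
  rw [h1, R0.algebraMap_def] at h
  have h2 : ((n : ℚ) + 1) ≠ 0 := by positivity
  simpa [R0.Deep, R0.mul_def, h2] using h

lemma exists_fl {g : D0} (h1 : derivative g • omb ∈ Bd) (h0 : R0.Deep (g.coeff 0)) :
    ∃ m : D1, fl m = g := by
  have h : g ∈ (Ideal.span (Set.range R0.f)).map (C : R0 →+* D0) := by
    rw [Ideal.mem_map_C_iff]
    intro n
    apply R0.Deep.mem
    cases n with
    | zero => exact h0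
    | succ n =>
      have := deep_of_smul h1 n
      rw [coeff_derivative] at this
      exact deep_of_succ_mul this
  rw [Ideal.map_span, ← Set.range_comp, Ideal.mem_span_range_iff_exists_fun] at h
  obtain ⟨c, hc⟩ := h
  refine ⟨c, ?_⟩
  rw [← hc]
  exact Finset.sum_congr rfl fun i _ => mul_comm _ _

end Pool.Agent.H463Z.Sul
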