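import Pool.Agent.H463Z.Sul.Basic
import Pool.Agent.H463Z.Sul.Comb
import Pool.Agent.H463Z.Sul.Test

/-!
# The counterexample
-/

namespace Pool.Agent.H463Z.Sul

open Polynomial

abbrev AA : Type := Lam dg

noncomputable abbrev gg (i : ℕ) : AA := gen dg i

/-- the differential of the first ten generators -/
noncomputable def sp (i : ℕ) : AA :=
  if i = 3 then gg 0 * gg 0 else if i = 4 then gg 1 * gg 1 else if i = 5 then gg 2 * gg 2
  else if i = 6 then gg 0 * gg 1 else if i = 7 then gg 0 * gg 2 else if i = 8 then gg 1 * gg 2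
  else if i = 9 then gg 0 * gg 8 + gg 1 * gg 7 - (gg 2 * gg 6 + gg 2 * gg 6) else 0

/-- a projection onto a subspace -/
noncomputable def proj (Z : Submodule ℚ AA) : AA →ₗ[ℚ] AA :=
  Z.subtype ∘ₗ Z.linearProjOfIsCompl _ (Submodule.exists_isCompl Z).choose_spec

lemma proj_mem (Z : Submodule ℚ AA) (x : AA) : proj Z x ∈ Z := Subtype.prop _

lemma proj_eq (Z : Submodule ℚ AA) {x : AA} (hx : x ∈ Z) : proj Z x = x := by
  have := Submodule.linearProjOfIsCompl_apply_left (Submodule.exists_isCompl Z).choose_spec ⟨x, hx⟩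
  exact congrArg Subtype.val this

/-- the differential of the generators -/
noncomputable def cc (i : ℕ) : AA :=
  if i < 10 then sp i else
    proj (LinearMap.ker (der dg (fun j => if _h : dg j < dg i then cc j else 0)) ⊓
      part dg (dg i + 1)) (word dg (wd i))
termination_by dg i

noncomputable def dd : AA →ₗ[ℚ] AA := der dg cc

lemma dg0 : dg 0 = 2 := by rw [dg_lt (by norm_num)]; rfl
lemma dg1 : dg 1 = 2 := by rw [dg_lt (by norm_num)]; rfl
lemma dg2 : dg 2 = 2 := by rw [dg_lt (by norm_num)]; rfl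
lemma dg3 : dg 3 = 3 := by rw [dg_lt (by norm_num)]; rfl
lemma dg4 : dg 4 = 3 := by rw [dg_lt (by norm_num)]; rfl
lemma dg5 : dg 5 = 3 := by rw [dg_lt (by norm_num)]; rfl
lemma dg6 : dg 6 = 3 := by rw [dg_lt (by norm_num)]; rfl
lemma dg7 : dg 7 = 3 := by rw [dg_lt (by norm_num)]; rfl
lemma dg8 : dg 8 = 3 := by rw [dg_lt (by norm_num)]; rfl
lemma dg9 : dg 9 = 4 := by rw [dg_lt (by norm_num)]; rfl

lemma gg_mul_mem (i j n : ℕ) (h : dg i + dg j = n) : gg i * gg j ∈ part dg n :=
  h ▸ mul_mem_part dg (gen_mem dg i) (gen_mem dg j)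

lemma gg_mul_dec (i j : ℕ) : gg i * gg j ∈ decomposable dg :=
  Submodule.subset_span ⟨[i, j], by simp, by simp⟩

lemma cc_lt {i : ℕ} (h : i < 10) : cc i = sp i := by rw [cc, if_pos h]

lemma cc_part (i : ℕ) : cc i ∈ part dg (dg i + 1) := by
  by_cases h : i < 10
  · rw [cc_lt h]
    interval_cases i <;> simp only [sp] <;> norm_num
    all_goals first
      | exact gg_mul_mem _ _ _ (by simp [dg0, dg1, dg2, dg3, dg4, dg5, dg6, dg7, dg8])
      | skip
    refine sub_mem (add_mem ?_ ?_) (add_mem ?_ ?_) <;>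
      exact gg_mul_mem _ _ _ (by simp [dg0, dg1, dg2, dg6, dg7, dg8, dg9])
  · rw [cc, if_neg h]
    exact (Submodule.mem_inf.1 (proj_mem _ _)).2

lemma even_succ {i : ℕ} (h : 10 ≤ i) : Even (dg i + 1) ∧ 6 ≤ dg i + 1 :=
  ⟨(dg_odd h).1.add_one, by have := (dg_odd h).2; omega⟩

lemma cut_eq {i : ℕ} (h : 10 ≤ i) {x : AA} (hx : x ∈ part dg (dg i + 1)) :
    der dg (fun j => if _h : dg j < dg i then cc j else 0) x = dd x := by
  induction hx using Submodule.span_induction with
  | mem x hx =>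
    obtain ⟨l, hl, rfl⟩ := hx
    apply der_congr_word
    intro j hj
    have := letter_le (hl ▸ (even_succ h).1) (hl ▸ (even_succ h).2) hj
    rw [dif_pos (by omega)]
  | zero => simp
  | add a b _ _ ha hb => rw [map_add, map_add, ha, hb]
  | smul q a _ ha => rw [map_smul, map_smul, ha]

lemma cc_ge {i : ℕ} (h : 10 ≤ i) :
    cc i = proj (LinearMap.ker dd ⊓ part dg (dg i + 1)) (word dg (wd i)) := by
  rw [cc, if_neg (by omega)]
  congr 2
  ext x
  simp only [Submodule.mem_inf, LinearMap.mem_ker]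
  constructor
  · rintro ⟨h1, h2⟩; exact ⟨by rw [← cut_eq h h2, h1], h2⟩
  · rintro ⟨h1, h2⟩; exact ⟨by rw [cut_eq h h2, h1], h2⟩

lemma dd_gen (i : ℕ) : dd (gg i) = cc i := by
  rw [dd, der_gen, symm_eq dg cc i (cc_part i)]

lemma dd_mul (x y : AA) : dd (x * y) = dd x * y + sg dg x * dd y := der_mul dg cc x y

lemma dd_cc (i : ℕ) : dd (cc i) = 0 := by
  by_cases h : i < 10
  · have e0 : dd (gg 0) = 0 := by rw [dd_gen, cc_lt (by norm_num)]; simp [sp]
    have e1 : dd (gg 1) = 0 := by rw [dd_gen, cc_lt (by norm_num)]; simp [sp]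
    have e2 : dd (gg 2) = 0 := by rw [dd_gen, cc_lt (by norm_num)]; simp [sp]
    have e6 : dd (gg 6) = gg 0 * gg 1 := by rw [dd_gen, cc_lt (by norm_num)]; simp [sp]
    have e7 : dd (gg 7) = gg 0 * gg 2 := by rw [dd_gen, cc_lt (by norm_num)]; simp [sp]
    have e8 : dd (gg 8) = gg 1 * gg 2 := by rw [dd_gen, cc_lt (by norm_num)]; simp [sp]
    have c01 : gg 1 * gg 0 = gg 0 * gg 1 := gen_mul_even dg (by rw [dg1]; norm_num) _
    have c2 : ∀ x, gg 2 * x = x * gg 2 := gen_mul_even dg (by rw [dg2]; norm_num)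
    rw [cc_lt h]
    interval_cases i <;> simp only [sp] <;> norm_num
    all_goals first
      | (rw [dd_mul]; simp only [e0, e1, e2, zero_mul, mul_zero, add_zero]; done)
      | skip
    simp only [dd_mul, e0, e1, e2, e6, e7, e8, scale_gen, dg0, dg1, dg2, zero_mul, zero_add]
    norm_num
    rw [c2 (gg 0 * gg 1), ← mul_assoc (gg 1), c01, mul_assoc]
    abel
  · rw [cc_ge (not_lt.1 h)]
    exact LinearMap.mem_ker.1 (Submodule.mem_inf.1 (proj_mem _ _)).1

lemma dd_dd (x : AA) : dd (dd x) = 0 :=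
  der_der dg cc (fun i => by change dd (dd (gg i)) = 0; rw [dd_gen, dd_cc]) x

lemma part_dec {n : ℕ} (h1 : Even n) (h2 : 6 ≤ n) : part dg n ≤ decomposable dg := by
  apply Submodule.span_mono
  rintro x ⟨l, hl, rfl⟩
  exact ⟨l, two_le_length (hl ▸ h1) (hl ▸ h2), rfl⟩

lemma cc_dec (i : ℕ) : cc i ∈ decomposable dg := by
  by_cases h : i < 10
  · rw [cc_lt h]
    interval_cases i <;> simp only [sp] <;> norm_num
    all_goals first
      | exact gg_mul_dec _ _
      | skip
    refine sub_mem (add_mem ?_ ?_) (add_mem ?_ ?_) <;> exact gg_mul_dec _ _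
  · exact part_dec (even_succ (not_lt.1 h)).1 (even_succ (not_lt.1 h)).2 (cc_part i)

theorem isMinimal : IsMinimalSullivan dg dd where
  two_le := two_le_dg
  degree _ _ hx := der_part dg cc cc_part hx
  leibniz n x hx y := by rw [dd_mul, scale_part dg (-1) hx, smul_mul_assoc]
  sq_zero := dd_dd
  minimal i := by rw [dd_gen]; exact cc_dec i

lemma exact_even {n : ℕ} (h1 : Even n) (h2 : 6 ≤ n) {z : AA} (hz : z ∈ part dg n)
    (hd : dd z = 0) : z ∈ LinearMap.range dd := by
  have h : ∀ x ∈ part dg n, proj (LinearMap.ker dd ⊓ part dg n) x ∈ LinearMap.range dd := by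
    intro x hx
    induction hx using Submodule.span_induction with
    | mem x hx =>
      obtain ⟨l, hl, rfl⟩ := hx
      refine ⟨gg (Encodable.encode l + 10), ?_⟩
      rw [dd_gen, cc_ge (by omega), wd_encode, dg_encode l (hl ▸ h1) (hl ▸ h2), hl]
    | zero => simp
    | add a b _ _ ha hb => rw [map_add]; exact add_mem ha hb
    | smul q a _ ha => rw [map_smul]; exact Submodule.smul_mem _ _ ha
  have := h z hz
  rwa [proj_eq _ (Submodule.mem_inf.2 ⟨hd, hz⟩)] at this

lemma part_fd (n : ℕ) : FiniteDimensional ℚ (part dg n) := by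
  apply FiniteDimensional.span_of_finite
  refine ((finite_words n).image (word dg)).subset ?_
  rintro x ⟨l, hl, rfl⟩
  exact ⟨l, hl, rfl⟩

lemma even_decomp {z : AA} (hz : z ∈ evenCocycles dg dd) :
    z ∈ (part dg 0 ⊔ part dg 2 ⊔ part dg 4) ⊔ LinearMap.range dd := by
  obtain ⟨hd, hz⟩ := hz
  obtain ⟨f, hf, rfl⟩ := (Submodule.mem_iSup_iff_exists_finsupp _ _).1 hz
  have hind : iSupIndep (fun n => part dg (2 * n + 1)) :=
    (part_indep dg).comp (f := fun n => 2 * n + 1) (fun a b h => by simpa using h)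
  have hdf : ∀ n ∈ f.support, dd (f n) = 0 := by
    have h := (iSupIndep_iff_finset_sum_eq_zero_imp_eq_zero _).1 hind f.support
      (fun n => dd (f n)) (fun n _ => der_part dg cc cc_part (hf n)) (by
        have : dd (f.sum fun _ x => x) = 0 := hd
        rwa [Finsupp.sum, map_sum] at this)
    exact h
  refine Submodule.sum_mem _ fun n hn => ?_
  by_cases h : 3 ≤ n
  · exact Submodule.mem_sup_right (exact_even ⟨n, by ring⟩ (by omega) (hf n) (hdf n hn))
  · apply Submodule.mem_sup_left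
    have := hf n
    have h' : n < 3 := by omega
    interval_cases n
    · exact Submodule.mem_sup_left (Submodule.mem_sup_left this)
    · exact Submodule.mem_sup_left (Submodule.mem_sup_right this)
    · exact Submodule.mem_sup_right this

theorem even_fd : FiniteDimensional ℚ (EvenCohomology dg dd) := by
  have := part_fd 0
  have := part_fd 2
  have := part_fd 4
  set F : Submodule ℚ AA := part dg 0 ⊔ part dg 2 ⊔ part dg 4 with hF
  have hfd : FiniteDimensional ℚ (F ⊓ evenCocycles dg dd : Submodule ℚ AA) :=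
    Submodule.finiteDimensional_inf_left _ _
  refine Module.Finite.of_surjective
    (((LinearMap.range dd).submoduleOf (evenCocycles dg dd)).mkQ ∘ₗ
      Submodule.inclusion (inf_le_right : F ⊓ evenCocycles dg dd ≤ _)) ?_
  intro q
  obtain ⟨z, rfl⟩ := Submodule.mkQ_surjective _ q
  obtain ⟨a, ha, b, hb, hab⟩ := Submodule.mem_sup.1 (even_decomp z.2)
  have hbe : a ∈ evenCocycles dg dd := by
    refine ⟨?_, ?_⟩
    · obtain ⟨b', rfl⟩ := hb
      have h1 : dd z.1 = 0 := z.2.1
      rw [← hab, map_add, dd_dd, add_zero] at h1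
      exact h1
    · have h0 : F ≤ ⨆ n, part dg (2 * n) :=
        sup_le (sup_le (le_iSup (fun n => part dg (2 * n)) 0) (le_iSup (fun n => part dg (2 * n)) 1))
          (le_iSup (fun n => part dg (2 * n)) 2)
      exact h0 ha
  refine ⟨⟨a, ha, hbe⟩, ?_⟩
  simp only [LinearMap.comp_apply, Submodule.mkQ_apply]
  rw [Submodule.Quotient.eq]
  show a - z.1 ∈ LinearMap.range dd
  rw [← hab]
  simpa using hb

end Pool.Agent.H463Z.Sul
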